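import Pool.Agent.H85.GD.Main

/-!
# A Kaehler metric is boundary rigid among Gauduchon metrics

`M` is the closed unit ball of a Euclidean space `E` of dimension `n ≥ 3` (a compact manifold with a
simple metric is diffeomorphic to it), `I` is an almost complex structure on `M`, `g` is a simple
metric on `M`, hermitian for `I`, with fundamental form `ω = dd^c ρ` (for integrable `I`, `g` is a
Kaehler metric with Kaehler potential `ρ`), and `g'` is a simple metric on `M` with the same
boundary distances as `g`, which is hermitian for `I`, or has the same one-jet as `g` at the points
of `∂M`.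

For a metric `g'` let `W'` be the bivector density which is the skew part of `-√det g' I g'⁻¹`,
and let `gau g' I` be the density `div (I div W')`. If `g'` is hermitian with fundamental form
`ω'`, `W'` is `√det g'` times the inverse of `ω'`, it represents `ω'^(m-1) / (m-1)!`, `m = n / 2`,
and `gau g' I dx = dd^c (ω'^(m-1)) / (m-1)!`. So `gau g' I = 0` is the condition of Gauduchon on
hermitian metrics (it is a single scalar equation, each conformal class of hermitian metrics of a
closed manifold contains a solution; it holds for balanced metrics, for Kaehler metrics, and for
`n = 4` it is the condition that `g'` is pluriclosed).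

The theorem: if `∫ ρ (gau g' I) ≤ 0`, for example if `g'` is a Gauduchon metric, then `g' = g`.

Sketch of the proof.
* The boundary distances determine the metrics on the tangent spaces of `∂M`, so, for hermitian
  metrics, `g' = g` at the points of `∂M`, and, with the second fundamental form of `∂M` and
  again the invariance under `I`, the first derivatives of `g'` and `g` agree there.
* The divergence theorem for the vector field `(d^c ρ) (W' - W) + ρ (I div W')`, which vanishes on
  `∂M`, gives `(n / 2) (energy (id : (M, g') → (M, g)) - vol g) = ∫ ρ (gau g' I)`.
* The boundary distances determine the volume, so the energy of `id` is at most `vol g'`, and the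
  sharp inequality for the mean stretch of a map between metrics (Santalo's formula) gives `g = g'`.
-/

open MeasureTheory Metric

namespace Pool.Agent.Results.MP_07cd05_gt.GauduchonClass

open Pool.Agent.W9h56.BE Pool.Agent.H85.SK Pool.Agent.H85.GD

theorem result {E : Type*} [NormedAddCommGroup E] [InnerProductSpace ℝ E] [FiniteDimensional ℝ E]
    [MeasurableSpace E] [BorelSpace E] (hn : 3 ≤ Module.finrank ℝ E)
    (g g' : E → E →L[ℝ] E →L[ℝ] ℝ) (I : E → E →L[ℝ] E) (ρ : E → ℝ)
    (hg : IsSimpleM g) (hg' : IsSimpleM g') (hI : IsAlmostComplex I) (ho : IsHermitian g I)
    (hP : IsPotential g I ρ) (hj : IsHermitian g' I ∨ SameJet g g')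
    (hρ : ∫ x in closedBall (0 : E) 1, ρ x * gau g' I x ≤ 0)
    (hd : BdryLE g g') (hd' : BdryLE g' g) : ∀ x ∈ closedBall (0 : E) 1, g' x = g x :=
  main hn hg hg' hI ho hP hj hρ hd hd'

end Pool.Agent.Results.MP_07cd05_gt.GauduchonClass
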