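import Pool.Agent.H85.KW.Main

/-!
# Boundary rigidity in the class of metrics with a common Killing field and the same orthogonal
# planes

`M` is the closed unit ball of a Euclidean space `E` of dimension `n ≥ 3` (a compact manifold with a
simple metric is diffeomorphic to it). Let `g`, `g'` be simple metrics on `M` with
`d_g = d_{g'}` on `∂M × ∂M` and let `X` be a Killing field of both. Suppose that at every point of
`M` there are numbers `a`, `b` with `g' = a g + b ξ²`, where `ξ = g(X, ·)`: the two metrics are
conformal on the orthogonal complement of `X`, which is the same for both, and their lengths of `X`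
are arbitrary. Then `g' = g` on `M`. For `b = 0` this is the rigidity in a conformal class.

(1) is the statement for a general Killing field `X`, nonzero almost everywhere and with `1 / |X|`
integrable; both conditions hold for every Killing field other than zero, as its zeros form a
submanifold of codimension at least two.

(2) is the statement for rotations: `X x = R x` with a skew-symmetric linear map `R ≠ 0`; here the
two conditions are proved.

Sketch of the proof.
* The function `ℓ = g(X, u)` is constant on the geodesics of `g` (velocity `u`), so the integrated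
  comparison of the lengths of geodesics (Santalo's formula) holds with an arbitrary weight
  `W(ℓ) ≥ 0`: the integral over the unit sphere bundle of `g` of `W(ℓ)` is at most the integral of
  `W(ℓ) √g'(u, u)`; similarly for `g'`, for which `ℓ' = g'(X, u)`.
* Let `α = a`, `β = g'(X, X) / g(X, X)`, `ρ = |X|_g`, so `g'(u, u) = α + (β - α) ℓ² / ρ²`. The
  weights `|ℓ|^p` with `p → -1` concentrate at the directions orthogonal to `X`, and give
  `∫ (1 - √α) ρ⁻¹ dV_g ≤ 0`. The same for `g'` in terms of `g` is
  `∫ (√α - 1) √α ^ (n - 2) ρ⁻¹ dV_g ≤ 0`. The sum gives `α = 1`, if `n ≥ 3`.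
* The weight `ℓ²` then gives `∫ (β - 1) ρ² dV_g ≥ 0` and `∫ (1 - β) √β ρ² dV_g ≥ 0`. The sum gives
  `β = 1`.
-/

namespace Pool.Agent.Results.MP_07cd05_gt.KillingClass

open Set Metric MeasureTheory
open scoped ContDiff RealInnerProductSpace
open Pool.Agent.W9h56.BE Pool.Agent.H85.KW

theorem result {E : Type*} [NormedAddCommGroup E] [InnerProductSpace ℝ E] [FiniteDimensional ℝ E]
    [MeasurableSpace E] [BorelSpace E]
    (hn : 3 ≤ Module.finrank ℝ E) (g g' : E → E →L[ℝ] E →L[ℝ] ℝ)
    (hg : IsSimpleM g) (hg' : IsSimpleM g') (hd : BdryLE g g') (hd' : BdryLE g' g) :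
    (∀ X : E → E, ContDiff ℝ 1 X → IsKilling g X → IsKilling g' X →
      (∀ᵐ x ∂(volume.restrict (closedBall (0 : E) 1)), X x ≠ 0) →
      IntegrableOn (fun x => ‖X x‖⁻¹) (closedBall (0 : E) 1) →
      InClass g g' X → ∀ x ∈ closedBall (0 : E) 1, g' x = g x) ∧
    (∀ R : E →L[ℝ] E, (∀ v, inner ℝ (R v) v = 0) → R ≠ 0 → IsKilling g R → IsKilling g' R →
      InClass g g' R → ∀ x ∈ closedBall (0 : E) 1, g' x = g x) :=
  ⟨fun _ hX hK hK' hne hint hcl => main hn hg hg' hd hd' hX hK hK' hne hint hcl,
    fun _ hR hR0 hK hK' hcl => main_rot hn hg hg' hd hd' hR hR0 hK hK' hcl⟩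

end Pool.Agent.Results.MP_07cd05_gt.KillingClass
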