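import Pool.Agent.H83.BD.Cone

/-!
# Boundary rigidity for pairs of metrics with pinched difference

`M` is the closed unit ball of a Euclidean space `E` of dimension `n ≥ 2` (a compact manifold with a
simple metric is diffeomorphic to it), `g` is a simple metric on `M`, `g'` another metric, and
`φ : M → M` a `C¹` bijection which is the identity on `∂M` (for instance `φ = id`). Let
`h = φ^* g' - g`. Suppose that at each point of `M` the form `h` is pinched between `0` and half of
its trace:
`0 ≤ h(v, v) ≤ (tr_g h / 2) g(v, v)` for all `v`, or `(tr_g h / 2) g(v, v) ≤ h(v, v) ≤ 0` for all `v`.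
The sign may be different at different points. In other words: `h` is semidefinite at each point and
the greatest modulus of its eigenvalues is at most half of the modulus of its trace.

* If `g'` is simple and `d_{g'} = d_g` on `∂M × ∂M`, then `φ^* g' = g`, and `g`, `g'` are isometric by a
  diffeomorphism which is the identity on `∂M`.
* If `g'` is any continuous metric with `d_{g'} ≥ d_g` on `∂M × ∂M`, then `vol(g') ≥ vol(g)`, with
  equality if and only if `φ^* g' = g`.

There is no condition on the size of `h`, and no condition on curvature or convex foliations. The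
condition holds if at each point `h` is semidefinite and each of its nonzero eigenvalues has
multiplicity at least two, in particular for

* conformal metrics `g' = ρ g` (the classical case);
* metrics `g' = g + c g(P ·, P ·)` where `c` is a function and `P` the orthogonal projection to
  any field of subspaces of rank at least `2` (conformal changes along a subbundle);
* metrics `g`, `g'` which are both hermitian for an almost complex structure (of which nothing else
  is supposed), if `g' - g` is semidefinite at each point.

Proof. If `h` is pinched then, in a basis in which `g` and `h` are diagonal, `h` has the entries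
`t_i c` with `0 ≤ t_i ≤ 1`, `∑ t_i = 2`, `c = tr_g h / 2`. By Bernoulli's inequality
`∏ (1 + t_i c) ≥ ∏ (1 + c) ^ {t_i} = (1 + c)²`, that is, `1 + tr_g h / 2 ≤ J`, where `J` is the
Jacobian of `φ : (M, g) → (M, g')`. So the mean of the stretch `|dφ(v)|_{g'} / |v|_g` over the
directions is at most `√(1 + tr_g h / n) ≤ 1 + (J - 1) / n`, and the sharp inequality for the
total stretch (Santalo's formula) applies.
-/

open Set Metric

namespace Pool.Agent.Results.MP_07cd05_gt.PinchedDifference

open Pool.Agent.W9h56.BE

/-- The form `C - B` lies between `0` and `(t / 2) B`, where `t` is the trace of `C - B` relative to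
`B`: here `(gram B)⁻¹ * gram C` is the matrix of `C` relative to `B`, so that
`t = trace ((gram B)⁻¹ * gram C) - n`. -/
def Pinched {E : Type*} [NormedAddCommGroup E] [InnerProductSpace ℝ E] [FiniteDimensional ℝ E]
    (B C : E →L[ℝ] E →L[ℝ] ℝ) : Prop :=
  ∀ v, C v v - B v v ∈
    uIcc 0 ((((gram B)⁻¹ * gram C).trace - Module.finrank ℝ E) / 2 * B v v)

/-- **Metrics with pinched difference.** -/
theorem result {E : Type*} [NormedAddCommGroup E] [InnerProductSpace ℝ E] [FiniteDimensional ℝ E]
    [MeasurableSpace E] [BorelSpace E] (hn : 2 ≤ Module.finrank ℝ E)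
    (g g' : E → E →L[ℝ] E →L[ℝ] ℝ) (φ : E → E) (hg : IsSimpleM g) (hφ : IsBdryMap φ)
    (hbij : BijOn φ (closedBall (0 : E) 1) (closedBall (0 : E) 1))
    (hp : ∀ x ∈ closedBall (0 : E) 1, Pinched (g x) (pull φ g' x)) :
    (IsSimpleM g' → BdryLE g g' → BdryLE g' g → IsIsometric g g' φ ∧ RelIsometric g g') ∧
    (IsMetric g' → BdryLE g g' → vol g ≤ vol g' ∧ (vol g' = vol g ↔ IsIsometric g g' φ)) := by
  obtain ⟨h1, h2⟩ := Pool.Agent.H83.BD.main hn hg hφ hbij hp
  exact ⟨h2, h1⟩

end Pool.Agent.Results.MP_07cd05_gt.PinchedDifference
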