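import Pool.Agent.H85.PC.Main

/-!
# A Kaehler metric is boundary rigid among pluriclosed metrics

`M` is the closed unit ball of a Euclidean space `E` of dimension `n ≥ 3` (a compact manifold with a
simple metric is diffeomorphic to it), `I` is an almost complex structure on `M`, `g` is a simple
metric on `M`, hermitian for `I`, with fundamental form `ω = dd^c ρ` (for integrable `I`, `g` is a
Kaehler metric with Kaehler potential `ρ`), and `g'` is a simple metric on `M` with the same
boundary distances as `g`, which is hermitian for `I`, or has the same one-jet as `g` at the points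
of `∂M`.

Let `ω'` be the fundamental form of the hermitian part of `g'` (of `g'`, if `g'` is hermitian), let
`d^c ω' = - dω'(I·, I·, I·)` (for integrable `I` this is the usual `d^c ω'`), and let `lam g g' I` be
the double contraction of `dd^c ω'` with the inverse of `ω`; it is eight times the quotient of
`dd^c ω' ∧ ω^(m-2) / (m-2)!` by the volume form of `g`, `m = n / 2`. It vanishes if `g'` is
pluriclosed (strong Kaehler with torsion), `dd^c ω' = 0`, and it is nonnegative if
`dd^c ω' ≥ 0` on pairs of complex lines.

The theorem: if `∫ ρ (lam g g' I) dvol_g ≤ 0`, for example if `g'` is pluriclosed, then `g' = g`.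

Sketch of the proof.
* The boundary distances determine the metrics on the tangent spaces of `∂M`, so, for hermitian
  metrics, `g' = g` at the points of `∂M`, and, with the second fundamental form of `∂M` and
  again the invariance under `I`, the first derivatives of `g'` and `g` agree there.
* The four-vector density `√det g (ω⁻¹ ∧ ω⁻¹)` is free of divergence. Its contractions with
  `(d^c ρ) ⊗ (ω' - ω)` and with `ρ ⊗ d^c ω'` are vector fields which vanish on `∂M`. The divergence
  theorem for the two fields gives
  `n (n - 2) / 2 (energy (id : (M, g) → (M, g')) - vol g) = 1 / 4 ∫ ρ (lam g g' I) dvol_g`.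
* So the energy of `id` is at most `vol g`, and the sharp inequality for the mean stretch of a map
  between metrics (Santalo's formula) gives `g' = g`.
-/

open MeasureTheory Metric

namespace Pool.Agent.Results.MP_07cd05_gt.PluriclosedClass

open Pool.Agent.W9h56.BE Pool.Agent.H85.SK Pool.Agent.H85.GD Pool.Agent.H85.PC

theorem result {E : Type*} [NormedAddCommGroup E] [InnerProductSpace ℝ E] [FiniteDimensional ℝ E]
    [MeasurableSpace E] [BorelSpace E] (hn : 3 ≤ Module.finrank ℝ E)
    (g g' : E → E →L[ℝ] E →L[ℝ] ℝ) (I : E → E →L[ℝ] E) (ρ : E → ℝ)
    (hg : IsSimpleM g) (hg' : IsSimpleM g') (hI : IsAlmostComplex I) (ho : IsHermitian g I)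
    (hP : IsPotential g I ρ) (hj : IsHermitian g' I ∨ SameJet g g')
    (hρ : ∫ x in closedBall (0 : E) 1, ρ x * lam g g' I x * dens (g x) ≤ 0)
    (hd : BdryLE g g') (hd' : BdryLE g' g) : ∀ x ∈ closedBall (0 : E) 1, g' x = g x :=
  main hn hg hg' hI ho hP hj hρ hd hd'

end Pool.Agent.Results.MP_07cd05_gt.PluriclosedClass
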